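import Mathlib

set_option autoImplicit false

namespace Pool.Agent.Helper69.Cup

open Filter

/-- `a` (read from index 1 on) is the cup-of-coffee sequence. -/
def IsCup (a : ℕ → ℕ) : Prop :=
  a 1 = 1 ∧ a 2 = 2 ∧ ∀ n, 3 ≤ n →
    IsLeast {m : ℕ | 0 < m ∧ (∀ i, 1 ≤ i → i < n → a i ≠ m) ∧
      (∀ p, p.Prime → p ∣ a (n - 1) → ¬ p ∣ a (n - 2) → p ∣ m) ∧
      (∀ p, p.Prime → p ∣ a (n - 1) → p ∣ a (n - 2) → ¬ p ∣ m)} (a n)

/-- required primes -/
def R (a : ℕ → ℕ) (n : ℕ) : Finset ℕ := (a (n - 1)).primeFactors \ (a (n - 2)).primeFactors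

/-- forbidden primes -/
def F (a : ℕ → ℕ) (n : ℕ) : Finset ℕ := (a (n - 1)).primeFactors ∩ (a (n - 2)).primeFactors

variable {a : ℕ → ℕ}

theorem IsCup.pos (h : IsCup a) {n : ℕ} (hn : 1 ≤ n) : 0 < a n := by
  rcases (by omega : n = 1 ∨ n = 2 ∨ 3 ≤ n) with rfl | rfl | h3
  · rw [h.1]; norm_num
  · rw [h.2.1]; norm_num
  · exact (h.2.2 n h3).1.1

theorem IsCup.ne (h : IsCup a) {i j : ℕ} (hi : 1 ≤ i) (hij : i < j) : a i ≠ a j := by
  rcases (by omega : j = 2 ∨ 3 ≤ j) with rfl | h3
  · have : i = 1 := by omega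
    subst this
    rw [h.1, h.2.1]; norm_num
  · exact (h.2.2 j h3).1.2.1 i hi hij

theorem IsCup.injOn (h : IsCup a) : Set.InjOn a {n | 1 ≤ n} := by
  intro i hi j hj hij
  rcases lt_trichotomy i j with hlt | heq | hgt
  · exact absurd hij (h.ne hi hlt)
  · exact heq
  · exact absurd hij.symm (h.ne hj hgt)

theorem IsCup.finite_le (h : IsCup a) (N : ℕ) : {n | 1 ≤ n ∧ a n ≤ N}.Finite := by
  apply Set.Finite.of_finite_image (f := a)
  · exact (Set.finite_Iic N).subset (by rintro _ ⟨n, hn, rfl⟩; exact hn.2)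
  · exact h.injOn.mono (fun n hn => hn.1)

theorem IsCup.R_sub (h : IsCup a) {n : ℕ} (hn : 3 ≤ n) : R a n ⊆ (a n).primeFactors := by
  intro p hp
  unfold R at hp
  rw [Finset.mem_sdiff, Nat.mem_primeFactors, Nat.mem_primeFactors] at hp
  have h1 := (h.2.2 n hn).1.2.2.1 p hp.1.1 hp.1.2.1 (fun hd => hp.2 ⟨hp.1.1, hd, (h.pos (by omega)).ne'⟩)
  exact Nat.mem_primeFactors.mpr ⟨hp.1.1, h1, (h.pos (by omega)).ne'⟩

theorem IsCup.F_disj (h : IsCup a) {n : ℕ} (hn : 3 ≤ n) : Disjoint (F a n) (a n).primeFactors := by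
  rw [Finset.disjoint_left]
  intro p hp hp'
  unfold F at hp
  rw [Finset.mem_inter, Nat.mem_primeFactors, Nat.mem_primeFactors] at hp
  exact (h.2.2 n hn).1.2.2.2 p hp.1.1 hp.1.2.1 hp.2.2.1 (Nat.dvd_of_mem_primeFactors hp')

theorem IsCup.le (h : IsCup a) {n : ℕ} (hn : 3 ≤ n) {m : ℕ} (hm : 0 < m)
    (hu : ∀ i, 1 ≤ i → i < n → a i ≠ m) (hR : R a n ⊆ m.primeFactors)
    (hF : Disjoint (F a n) m.primeFactors) : a n ≤ m := by
  refine (h.2.2 n hn).2 ⟨hm, hu, ?_, ?_⟩
  · intro p hp h1 h2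
    refine Nat.dvd_of_mem_primeFactors (hR ?_)
    unfold R
    rw [Finset.mem_sdiff, Nat.mem_primeFactors, Nat.mem_primeFactors]
    exact ⟨⟨hp, h1, (h.pos (by omega)).ne'⟩, fun hc => h2 hc.2.1⟩
  · intro p hp h1 h2 h3
    refine Finset.disjoint_left.mp hF ?_ (Nat.mem_primeFactors.mpr ⟨hp, h3, hm.ne'⟩)
    unfold F
    rw [Finset.mem_inter, Nat.mem_primeFactors, Nat.mem_primeFactors]
    exact ⟨⟨hp, h1, (h.pos (by omega)).ne'⟩, ⟨hp, h2, (h.pos (by omega)).ne'⟩⟩

theorem IsCup.F_succ (h : IsCup a) {n : ℕ} (hn : 3 ≤ n) : F a (n + 1) = R a n := by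
  ext p
  constructor
  · intro hp
    have hp1 : p ∈ (a n).primeFactors := (Finset.mem_inter.mp hp).1
    have hp2 : p ∈ (a (n - 1)).primeFactors := by
      have := (Finset.mem_inter.mp hp).2
      rwa [show n + 1 - 2 = n - 1 by omega] at this
    unfold R
    rw [Finset.mem_sdiff]
    refine ⟨hp2, fun hp3 => ?_⟩
    exact Finset.disjoint_left.mp (h.F_disj hn) (Finset.mem_inter.mpr ⟨hp2, hp3⟩) hp1
  · intro hp
    unfold F
    rw [Finset.mem_inter]
    refine ⟨?_, ?_⟩
    · rw [show n + 1 - 1 = n by omega]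
      exact h.R_sub hn hp
    · rw [show n + 1 - 2 = n - 1 by omega]
      exact (Finset.mem_sdiff.mp hp).1

theorem IsCup.R_succ (h : IsCup a) {n : ℕ} (hn : 3 ≤ n) :
    R a (n + 1) = (a n).primeFactors \ R a n := by
  ext p
  have e1 : n + 1 - 1 = n := by omega
  have e2 : n + 1 - 2 = n - 1 := by omega
  constructor
  · intro hp
    unfold R at hp
    rw [e1, e2, Finset.mem_sdiff] at hp
    rw [Finset.mem_sdiff]
    exact ⟨hp.1, fun hc => hp.2 (Finset.mem_sdiff.mp hc).1⟩
  · intro hp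
    rw [Finset.mem_sdiff] at hp
    unfold R
    rw [e1, e2, Finset.mem_sdiff]
    refine ⟨hp.1, fun hc => ?_⟩
    have : p ∈ F a (n + 1) := by
      unfold F
      rw [e1, e2, Finset.mem_inter]
      exact ⟨hp.1, hc⟩
    rw [h.F_succ hn] at this
    exact hp.2 this

theorem IsCup.appears_of_freq (h : IsCup a) {m : ℕ} (hm : 0 < m)
    (hf : ∃ᶠ n in atTop, R a n ⊆ m.primeFactors ∧ Disjoint (F a n) m.primeFactors) :
    ∃ n, 1 ≤ n ∧ a n = m := by
  by_contra hcon
  push Not at hcon
  have hfin := h.finite_le m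
  have : ∀ᶠ n in atTop, n ∉ {n | 1 ≤ n ∧ a n ≤ m} := by
    have := hfin.compl_mem_cofinite
    rw [Nat.cofinite_eq_atTop] at this
    exact this
  obtain ⟨n, ⟨hn1, hn2⟩, hn3, hn4⟩ := (hf.and_eventually (this.and (eventually_ge_atTop 3))).exists
  exact hn3 ⟨by omega, h.le hn4 hm (fun i hi _ => hcon i hi) hn1 hn2⟩

theorem IsCup.late (h : IsCup a) {S : Set ℕ} (hS : S.Infinite)
    (happ : ∀ s ∈ S, ∃ n, 1 ≤ n ∧ a n = s) (N : ℕ) : ∃ n, N ≤ n ∧ 1 ≤ n ∧ a n ∈ S := by
  by_contra hcon
  push Not at hcon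
  apply hS
  refine ((Set.finite_Iio N).image a).subset ?_
  intro s hs
  obtain ⟨n, hn1, hn2⟩ := happ s hs
  refine ⟨n, ?_, hn2⟩
  by_contra hlt
  exact hcon n (by simpa using hlt) hn1 (hn2 ▸ hs)

theorem primeFactors_prod_primes {T : Finset ℕ} (hT : ∀ p ∈ T, p.Prime) :
    (∏ p ∈ T, p).primeFactors = T := Nat.primeFactors_prod hT

theorem prime_of_mem_R {n p : ℕ} (hp : p ∈ R a n) : p.Prime :=
  Nat.prime_of_mem_primeFactors (Finset.mem_sdiff.mp hp).1

theorem R_F_disj (n : ℕ) : Disjoint (F a n) (R a n) := by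
  rw [Finset.disjoint_left]
  intro p hp hp'
  exact (Finset.mem_sdiff.mp hp').2 (Finset.mem_inter.mp hp).2

/-- infinitely many primes divide terms -/
theorem IsCup.infinite_primes (h : IsCup a) :
    {q : ℕ | q.Prime ∧ ∃ n, 1 ≤ n ∧ q ∣ a n}.Infinite := by
  intro hfin
  set D := hfin.toFinset with hD
  obtain ⟨q, hq, hqD⟩ : ∃ q : ℕ, q.Prime ∧ q ∉ D := by
    obtain ⟨q, hq1, hq2⟩ := Nat.exists_infinite_primes (D.sup id + 1)
    refine ⟨q, hq2, fun hq3 => ?_⟩
    have := Finset.le_sup (f := id) hq3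
    simp only [id] at this
    omega
  have hqn : ∀ n, 1 ≤ n → ¬ q ∣ a n := by
    intro n hn hd
    exact hqD (by rw [hD, Set.Finite.mem_toFinset]; exact ⟨hq, n, hn, hd⟩)
  have hRD : ∀ n, 3 ≤ n → R a n ⊆ D := by
    intro n hn p hp
    rw [hD, Set.Finite.mem_toFinset]
    exact ⟨prime_of_mem_R hp, n, by omega, Nat.dvd_of_mem_primeFactors (h.R_sub hn hp)⟩
  have hDpos : ∀ p ∈ D, p.Prime := by
    intro p hp
    rw [hD, Set.Finite.mem_toFinset] at hp
    exact hp.1
  have hbd : ∀ n, 3 ≤ n → a n ≤ (∏ p ∈ D, p) * q := by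
    intro n hn
    have hT : ∀ p ∈ insert q (R a n), p.Prime := by
      intro p hp
      rcases Finset.mem_insert.mp hp with rfl | hp
      · exact hq
      · exact prime_of_mem_R hp
    have hqR : q ∉ R a n := fun hc => hqD (hRD n hn hc)
    have h1 : a n ≤ ∏ p ∈ insert q (R a n), p := by
      refine h.le hn (Finset.prod_pos fun p hp => (hT p hp).pos) ?_ ?_ ?_
      · intro i hi _ hc
        refine hqn i hi ?_
        rw [hc]
        exact Finset.dvd_prod_of_mem _ (Finset.mem_insert_self _ _)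
      · rw [primeFactors_prod_primes hT]; exact Finset.subset_insert _ _
      · rw [primeFactors_prod_primes hT, Finset.disjoint_insert_right]
        refine ⟨fun hc => ?_, R_F_disj n⟩
        exact hqn (n - 1) (by omega) (Nat.dvd_of_mem_primeFactors (Finset.mem_inter.mp hc).1)
    refine h1.trans ?_
    rw [Finset.prod_insert hqR, mul_comm]
    refine Nat.mul_le_mul_right _ ?_
    refine Nat.le_of_dvd (Finset.prod_pos fun p hp => (hDpos p hp).pos) ?_
    exact Finset.prod_dvd_prod_of_subset _ _ _ (hRD n hn)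
  have := h.finite_le ((∏ p ∈ D, p) * q)
  refine (Set.infinite_of_injective_forall_mem (f := fun n : ℕ => n + 3) ?_ ?_) this
  · intro x y hxy; simpa using hxy
  · intro n
    exact ⟨by omega, hbd _ (by omega)⟩

/-- State two steps after the first appearance of an odd prime. -/
theorem IsCup.after_first (h : IsCup a) {q n : ℕ} (hq : q.Prime) (hq2 : q ≠ 2) (hn : 1 ≤ n)
    (hd : q ∣ a n) (hfirst : ∀ i, 1 ≤ i → i < n → ¬ q ∣ a i) :
    3 ≤ n ∧ R a (n + 2) ⊆ {2} ∧ F a (n + 2) = {q} := by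
  have hn3 : 3 ≤ n := by
    by_contra hc
    rcases (by omega : n = 1 ∨ n = 2) with rfl | rfl
    · rw [h.1] at hd
      exact hq.one_lt.ne' (Nat.dvd_one.mp hd)
    · rw [h.2.1] at hd
      exact hq2 ((Nat.prime_dvd_prime_iff_eq hq Nat.prime_two).mp hd)
  refine ⟨hn3, ?_⟩
  have hqR : q ∉ R a n := fun hc =>
    hfirst (n - 1) (by omega) (by omega) (Nat.dvd_of_mem_primeFactors (Finset.mem_sdiff.mp hc).1)
  have hT : ∀ p ∈ insert q (R a n), p.Prime := by
    intro p hp
    rcases Finset.mem_insert.mp hp with rfl | hp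
    · exact hq
    · exact prime_of_mem_R hp
  have hmpos : 0 < ∏ p ∈ insert q (R a n), p := Finset.prod_pos fun p hp => (hT p hp).pos
  have han : a n = ∏ p ∈ insert q (R a n), p := by
    apply le_antisymm
    · refine h.le hn3 hmpos ?_ ?_ ?_
      · intro i hi hin hc
        refine hfirst i hi hin ?_
        rw [hc]
        exact Finset.dvd_prod_of_mem _ (Finset.mem_insert_self _ _)
      · rw [primeFactors_prod_primes hT]; exact Finset.subset_insert _ _
      · rw [primeFactors_prod_primes hT, Finset.disjoint_insert_right]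
        refine ⟨fun hc => ?_, R_F_disj n⟩
        exact hfirst (n - 1) (by omega) (by omega)
          (Nat.dvd_of_mem_primeFactors (Finset.mem_inter.mp hc).1)
    · refine Nat.le_of_dvd (h.pos hn) ?_
      refine Finset.prod_primes_dvd _ (fun p hp => (hT p hp).prime) ?_
      intro p hp
      rcases Finset.mem_insert.mp hp with rfl | hp
      · exact hd
      · exact Nat.dvd_of_mem_primeFactors (h.R_sub hn3 hp)
  have hPn : (a n).primeFactors = insert q (R a n) := by
    rw [han, primeFactors_prod_primes hT]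
  have hR1 : R a (n + 1) = {q} := by
    rw [h.R_succ hn3, hPn]
    ext p
    simp only [Finset.mem_sdiff, Finset.mem_insert, Finset.mem_singleton]
    constructor
    · rintro ⟨h1 | h1, h2⟩
      · exact h1
      · exact absurd h1 h2
    · rintro rfl
      exact ⟨Or.inl rfl, hqR⟩
  have hF1 : F a (n + 1) = R a n := h.F_succ hn3
  have hF2 : F a (n + 2) = {q} := by rw [h.F_succ (by omega : 3 ≤ n + 1), hR1]
  refine ⟨?_, hF2⟩
  have hR2 : R a (n + 2) = (a (n + 1)).primeFactors \ {q} := by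
    rw [h.R_succ (by omega : 3 ≤ n + 1), hR1]
  have hqd : q ∣ a (n + 1) := Nat.dvd_of_mem_primeFactors
    (h.R_sub (by omega : 3 ≤ n + 1) (by rw [hR1]; exact Finset.mem_singleton_self _))
  by_cases hRe : R a n = ∅
  · have han' : a n = q := by rw [han, hRe]; simp
    have hle : a (n + 1) ≤ 2 * q := by
      refine h.le (by omega) (by have := hq.pos; omega) ?_ ?_ ?_
      · intro i hi hin hc
        rcases (by omega : i < n ∨ i = n) with hlt | rfl
        · refine hfirst i hi hlt ?_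
          rw [hc]; exact Dvd.intro_left 2 rfl
        · rw [han'] at hc
          have := hq.pos
          omega
      · rw [hR1]
        intro p hp
        rw [Finset.mem_singleton] at hp
        subst hp
        exact Nat.mem_primeFactors.mpr ⟨hq, Dvd.intro_left 2 rfl, by have := hq.pos; omega⟩
      · rw [hF1, hRe]; exact Finset.disjoint_empty_left _
    have heq : a (n + 1) = 2 * q := by
      obtain ⟨c, hc⟩ := hqd
      have hne : a (n + 1) ≠ q := by
        rw [← han']; exact (h.ne hn (by omega)).symm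
      have hpos := h.pos (by omega : 1 ≤ n + 1)
      have hqp := hq.pos
      have hc2 : c ≤ 2 := by
        by_contra hc3
        have : 3 ≤ c := by omega
        nlinarith
      interval_cases c
      · omega
      · omega
      · omega
    rw [hR2, heq]
    intro p hp
    rw [Finset.mem_sdiff, Nat.mem_primeFactors] at hp
    rcases (Nat.Prime.dvd_mul hp.1.1).mp hp.1.2.1 with h1 | h1
    · rw [Finset.mem_singleton]
      exact (Nat.prime_dvd_prime_iff_eq hp.1.1 Nat.prime_two).mp h1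
    · exact absurd (Finset.mem_singleton.mpr ((Nat.prime_dvd_prime_iff_eq hp.1.1 hq).mp h1)) hp.2
  · obtain ⟨r, hr⟩ := Finset.nonempty_iff_ne_empty.mpr hRe
    have hle : a (n + 1) ≤ q := by
      refine h.le (by omega) hq.pos ?_ ?_ ?_
      · intro i hi hin hc
        rcases (by omega : i < n ∨ i = n) with hlt | rfl
        · exact hfirst i hi hlt (by rw [hc])
        · have : r ∣ q := by
            rw [← hc, han]
            exact Finset.dvd_prod_of_mem _ (Finset.mem_insert_of_mem hr)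
          have hrq := (Nat.prime_dvd_prime_iff_eq (prime_of_mem_R hr) hq).mp this
          exact hqR (hrq ▸ hr)
      · rw [hR1, hq.primeFactors]
      · rw [hF1, hq.primeFactors, Finset.disjoint_singleton_right]
        exact hqR
    have heq : a (n + 1) = q := le_antisymm hle (Nat.le_of_dvd (h.pos (by omega)) hqd)
    rw [hR2, heq, hq.primeFactors]
    simp

/-- every positive even number appears -/
theorem IsCup.even_appears (h : IsCup a) {m : ℕ} (hm : 0 < m) (h2 : 2 ∣ m) :
    ∃ n, 1 ≤ n ∧ a n = m := by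
  apply h.appears_of_freq hm
  rw [frequently_atTop]
  intro N
  obtain ⟨q, ⟨hq, hex⟩, hqN⟩ : ∃ q ∈ {q : ℕ | q.Prime ∧ ∃ n, 1 ≤ n ∧ q ∣ a n},
      q ∉ ({2} ∪ m.primeFactors ∪ (Finset.range N).biUnion (fun i => (a i).primeFactors) :
        Finset ℕ) := by
    by_contra hcon
    push Not at hcon
    exact h.infinite_primes ((Finset.finite_toSet _).subset fun q hq => hcon q hq)
  classical
  have hmin := Nat.find_spec hex
  have hmin' := fun i (hi : i < Nat.find hex) => Nat.find_min hex hi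
  set n := Nat.find hex with hn
  simp only [Finset.mem_union, Finset.mem_singleton, Finset.mem_biUnion, Finset.mem_range,
    not_or, not_exists, not_and] at hqN
  obtain ⟨⟨hq2, hqm⟩, hqN⟩ := hqN
  obtain ⟨h3, hR, hF⟩ := h.after_first hq hq2 hmin.1 hmin.2
    (fun i hi hin hc => hmin' i hin ⟨hi, hc⟩)
  refine ⟨n + 2, ?_, ?_, ?_⟩
  · by_contra hlt
    exact hqN n (by omega) (Nat.mem_primeFactors.mpr ⟨hq, hmin.2, (h.pos hmin.1).ne'⟩)
  · refine hR.trans ?_
    intro p hp
    rw [Finset.mem_singleton] at hp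
    subst hp
    exact Nat.mem_primeFactors.mpr ⟨Nat.prime_two, h2, hm.ne'⟩
  · rw [hF, Finset.disjoint_singleton_left]
    exact hqm

/-- exceptional sets -/
def Exc (a : ℕ → ℕ) (K : Finset ℕ) : Prop :=
  ∀ᶠ n in atTop, ¬ (R a n ⊆ K ∧ Disjoint (F a n) K)

theorem IsCup.exc_of_missing (h : IsCup a) {m : ℕ} (hm : 0 < m) (hmiss : ∀ n, 1 ≤ n → a n ≠ m) :
    Exc a m.primeFactors := by
  unfold Exc
  by_contra hcon
  rw [not_eventually] at hcon
  simp only [not_not] at hcon
  obtain ⟨n, hn1, hn2⟩ := h.appears_of_freq hm hcon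
  exact hmiss n hn1 hn2

theorem IsCup.finite_of_exc (h : IsCup a) {K : Finset ℕ} (hK : Exc a K) :
    {n | 1 ≤ n ∧ (a n).primeFactors = K}.Finite := by
  obtain ⟨N, hN⟩ := eventually_atTop.mp hK
  refine (Set.finite_Iio (max N 3)).subset ?_
  rintro n ⟨hn1, hn2⟩
  rw [Set.mem_Iio]
  by_contra hlt
  have h3 : 3 ≤ n := by omega
  refine hN n (by omega) ⟨?_, ?_⟩
  · rw [← hn2]; exact h.R_sub h3
  · rw [← hn2]; exact h.F_disj h3

theorem IsCup.two_not_mem (h : IsCup a) {m : ℕ} (hm : 0 < m) (hmiss : ∀ n, 1 ≤ n → a n ≠ m) :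
    2 ∉ m.primeFactors := by
  intro hc
  obtain ⟨n, hn1, hn2⟩ := h.even_appears hm (Nat.dvd_of_mem_primeFactors hc)
  exact hmiss n hn1 hn2

/-- powers of a prime outside an exceptional set all appear -/
theorem IsCup.prime_pow_appears (h : IsCup a) {K : Finset ℕ} (hK : Exc a K) (h2K : 2 ∉ K)
    {p : ℕ} (hp : p.Prime) (hpK : p ∉ K) (hp2 : p ≠ 2) {j : ℕ} (hj : j ≠ 0) :
    ∃ n, 1 ≤ n ∧ a n = p ^ j := by
  by_contra hcon
  push Not at hcon
  have hPp : (p ^ j).primeFactors = {p} := Nat.primeFactors_prime_pow hj hp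
  have hEp : Exc a {p} := by
    rw [← hPp]
    exact h.exc_of_missing (pow_pos hp.pos _) hcon
  obtain ⟨N, hN⟩ := eventually_atTop.mp (hK.and hEp)
  have hinf : (Set.range fun i : ℕ => 2 ^ (i + 1) * p).Infinite := by
    apply Set.infinite_range_of_injective
    intro x y hxy
    have h1 : 2 ^ (x + 1) = 2 ^ (y + 1) := Nat.eq_of_mul_eq_mul_right hp.pos hxy
    have := Nat.pow_right_injective (le_refl 2) h1
    omega
  obtain ⟨n, hnN, hn1, i, hi⟩ := h.late hinf (by
    rintro s ⟨i, rfl⟩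
    refine h.even_appears (by have := hp.pos; positivity) ?_
    exact Dvd.dvd.mul_right (dvd_pow_self 2 (by omega)) _) (max N 3)
  simp only at hi
  have hP : (a n).primeFactors = {2, p} := by
    rw [← hi, Nat.primeFactors_mul (by positivity) hp.pos.ne',
      Nat.primeFactors_prime_pow (by omega) Nat.prime_two, hp.primeFactors]
    rfl
  have h3 : 3 ≤ n := by omega
  have hRs := h.R_sub h3
  have hFd := h.F_disj h3
  have hRn := h.R_succ h3
  have hFn := h.F_succ h3
  rw [hP] at hRs hFd hRn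
  obtain ⟨-, hb1⟩ := hN n (by omega)
  obtain ⟨ha2, hb2⟩ := hN (n + 1) (by omega)
  have hpF : p ∉ F a n := fun hc => Finset.disjoint_left.mp hFd hc (by simp)
  have h2R : 2 ∈ R a n := by
    by_contra hc
    refine hb1 ⟨?_, Finset.disjoint_singleton_right.mpr hpF⟩
    intro x hx
    rcases Finset.mem_insert.mp (hRs hx) with rfl | h'
    · exact absurd hx hc
    · exact h'
  have hpR : p ∈ R a n := by
    by_contra hc
    refine hb2 ⟨?_, ?_⟩
    · rw [hRn]
      intro x hx
      rw [Finset.mem_sdiff] at hx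
      rcases Finset.mem_insert.mp hx.1 with rfl | h'
      · exact absurd h2R hx.2
      · exact h'
    · rw [hFn, Finset.disjoint_singleton_right]; exact hc
  refine ha2 ⟨?_, ?_⟩
  · rw [hRn]
    intro x hx
    rw [Finset.mem_sdiff] at hx
    rcases Finset.mem_insert.mp hx.1 with rfl | h'
    · exact absurd h2R hx.2
    · rw [Finset.mem_singleton] at h'
      subst h'
      exact absurd hpR hx.2
  · rw [hFn]
    refine Finset.disjoint_of_subset_left hRs ?_
    rw [Finset.disjoint_insert_left, Finset.disjoint_singleton_left]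
    exact ⟨h2K, hpK⟩

/-- every multiple of a prime outside an exceptional set appears -/
theorem IsCup.mult_appears (h : IsCup a) {K : Finset ℕ} (hK : Exc a K) (h2K : 2 ∉ K)
    {p : ℕ} (hp : p.Prime) (hpK : p ∉ K) {m : ℕ} (hm : 0 < m) (hpm : p ∣ m) :
    ∃ n, 1 ≤ n ∧ a n = m := by
  by_cases hp2 : p = 2
  · exact h.even_appears hm (hp2 ▸ hpm)
  apply h.appears_of_freq hm
  rw [frequently_atTop]
  intro N
  obtain ⟨N', hN'⟩ := eventually_atTop.mp hK
  have hinf : (Set.range fun i : ℕ => p ^ (i + 1)).Infinite := by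
    apply Set.infinite_range_of_injective
    intro x y hxy
    have := Nat.pow_right_injective hp.two_le hxy
    omega
  obtain ⟨n, hnN, hn1, i, hi⟩ := h.late hinf (by
    rintro s ⟨i, rfl⟩
    exact h.prime_pow_appears hK h2K hp hpK hp2 (by omega)) (max (max N N') 3)
  simp only at hi
  have hP : (a n).primeFactors = {p} := by
    rw [← hi, Nat.primeFactors_prime_pow (by omega) hp]
  have h3 : 3 ≤ n := by omega
  have hRs := h.R_sub h3
  have hRn := h.R_succ h3
  have hFn := h.F_succ h3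
  rw [hP] at hRs hRn
  have hRe : R a n = ∅ := by
    rcases Finset.subset_singleton_iff.mp hRs with h0 | h0
    · exact h0
    · exfalso
      refine hN' (n + 1) (by omega) ⟨?_, ?_⟩
      · rw [hRn, h0]; simp
      · rw [hFn, h0, Finset.disjoint_singleton_left]; exact hpK
  refine ⟨n + 1, by omega, ?_, ?_⟩
  · rw [hRn, hRe]
    intro x hx
    simp only [Finset.sdiff_empty, Finset.mem_singleton] at hx
    subst hx
    exact Nat.mem_primeFactors.mpr ⟨hp, hpm, hm.ne'⟩
  · rw [hFn, hRe]; exact Finset.disjoint_empty_left _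

theorem IsCup.structure (h : IsCup a) :
    (∀ m, 0 < m → ∃ n, 1 ≤ n ∧ a n = m) ∨
    ∃ K : Finset ℕ, K.Nonempty ∧ (∀ p ∈ K, p.Prime ∧ p ≠ 2) ∧
      (∀ m, 0 < m → m.primeFactors ≠ K → ∃ n, 1 ≤ n ∧ a n = m) ∧
      {n | 1 ≤ n ∧ (a n).primeFactors = K}.Finite := by
  by_cases hall : ∀ m, 0 < m → ∃ n, 1 ≤ n ∧ a n = m
  · exact Or.inl hall
  right
  push Not at hall
  obtain ⟨m0, hm0, hmiss0⟩ := hall
  have hK := h.exc_of_missing hm0 hmiss0
  have h2K := h.two_not_mem hm0 hmiss0
  refine ⟨m0.primeFactors, ?_, ?_, ?_, h.finite_of_exc hK⟩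
  · rw [Nat.nonempty_primeFactors]
    rcases (by omega : m0 = 1 ∨ 1 < m0) with rfl | h1
    · exact absurd h.1 (hmiss0 1 le_rfl)
    · exact h1
  · intro p hp
    refine ⟨Nat.prime_of_mem_primeFactors hp, ?_⟩
    rintro rfl
    exact h2K hp
  · intro m hm hne
    by_contra hcon
    push Not at hcon
    have hL := h.exc_of_missing hm hcon
    have h2L := h.two_not_mem hm hcon
    have hsub : m.primeFactors ⊆ m0.primeFactors := by
      intro p hp
      by_contra hpK
      obtain ⟨n, hn1, hn2⟩ := h.mult_appears hK h2K (Nat.prime_of_mem_primeFactors hp) hpK hm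
        (Nat.dvd_of_mem_primeFactors hp)
      exact hcon n hn1 hn2
    have hsub' : m0.primeFactors ⊆ m.primeFactors := by
      intro p hp
      by_contra hpK
      obtain ⟨n, hn1, hn2⟩ := h.mult_appears hL h2L (Nat.prime_of_mem_primeFactors hp) hpK hm0
        (Nat.dvd_of_mem_primeFactors hp)
      exact hmiss0 n hn1 hn2
    exact hne (Finset.Subset.antisymm hsub hsub')

end Pool.Agent.Helper69.Cup
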