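import Pool.Agent.Helper69.Cup.Basic

set_option autoImplicit false

namespace Pool.Agent.Helper69.Cup

/-- The candidate set at step `n` for a sequence `a`. -/
def cand (a : ℕ → ℕ) (n : ℕ) : Set ℕ :=
  {m : ℕ | 0 < m ∧ (∀ i, 1 ≤ i → i < n → a i ≠ m) ∧
      (∀ p, p.Prime → p ∣ a (n - 1) → ¬ p ∣ a (n - 2) → p ∣ m) ∧
      (∀ p, p.Prime → p ∣ a (n - 1) → p ∣ a (n - 2) → ¬ p ∣ m)}

theorem cand_congr {a b : ℕ → ℕ} {n : ℕ} (hn : 3 ≤ n) (hab : ∀ i, i < n → a i = b i) :
    cand a n = cand b n := by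
  ext m
  unfold cand
  simp only [Set.mem_setOf_eq]
  rw [hab (n - 1) (by omega), hab (n - 2) (by omega)]
  refine and_congr_right fun _ => and_congr_left fun _ => ?_
  constructor
  · intro h i hi hin; rw [← hab i hin]; exact h i hi hin
  · intro h i hi hin; rw [hab i hin]; exact h i hi hin

theorem cand_nonempty (a : ℕ → ℕ) (n : ℕ) (hn : 3 ≤ n) (hpos : ∀ i, 1 ≤ i → i < n → 0 < a i) :
    (cand a n).Nonempty := by
  obtain ⟨q, hq1, hq2⟩ := Nat.exists_infinite_primes ((∑ i ∈ Finset.range n, a i) + 1)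
  have hqn : ∀ i, 1 ≤ i → i < n → ¬ q ∣ a i := by
    intro i hi hin hd
    have h1 := Nat.le_of_dvd (hpos i hi hin) hd
    have h2 : a i ≤ ∑ i ∈ Finset.range n, a i :=
      Finset.single_le_sum (f := a) (fun _ _ => Nat.zero_le _) (Finset.mem_range.mpr hin)
    omega
  have hT : ∀ p ∈ insert q (R a n), p.Prime := by
    intro p hp
    rcases Finset.mem_insert.mp hp with rfl | hp
    · exact hq2
    · exact prime_of_mem_R hp
  have hP := primeFactors_prod_primes hT
  have hmpos : 0 < ∏ p ∈ insert q (R a n), p := Finset.prod_pos fun p hp => (hT p hp).pos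
  refine ⟨∏ p ∈ insert q (R a n), p, hmpos, ?_, ?_, ?_⟩
  · intro i hi hin hc
    refine hqn i hi hin ?_
    rw [hc]
    exact Finset.dvd_prod_of_mem _ (Finset.mem_insert_self _ _)
  · intro p hp h1 h2
    refine Nat.dvd_of_mem_primeFactors ?_
    rw [hP]
    refine Finset.mem_insert_of_mem ?_
    unfold R
    rw [Finset.mem_sdiff, Nat.mem_primeFactors, Nat.mem_primeFactors]
    exact ⟨⟨hp, h1, (hpos _ (by omega) (by omega)).ne'⟩, fun hc => h2 hc.2.1⟩
  · intro p hp h1 h2 h3
    have hm : p ∈ (∏ p ∈ insert q (R a n), p).primeFactors :=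
      Nat.mem_primeFactors.mpr ⟨hp, h3, hmpos.ne'⟩
    rw [hP, Finset.mem_insert] at hm
    rcases hm with rfl | hm
    · exact hqn (n - 1) (by omega) (by omega) h1
    · refine (Finset.mem_sdiff.mp hm).2 ?_
      exact Nat.mem_primeFactors.mpr ⟨hp, h2, (hpos _ (by omega) (by omega)).ne'⟩

/-- Finite stages of the sequence. -/
noncomputable def stage : ℕ → ℕ → ℕ
  | 0 => fun i => if i = 1 then 1 else if i = 2 then 2 else 0
  | n + 1 => Function.update (stage n) (n + 3) (sInf (cand (stage n) (n + 3)))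

/-- The cup-of-coffee sequence. -/
noncomputable def cup (i : ℕ) : ℕ := stage i i

theorem stage_stable {n i : ℕ} (hi : i ≤ n + 2) : ∀ k, stage (n + k) i = stage n i
  | 0 => rfl
  | k + 1 => by
    rw [← Nat.add_assoc]
    change Function.update (stage (n + k)) (n + k + 3) _ i = _
    rw [Function.update_of_ne (by omega), stage_stable hi k]

theorem stage_eq_cup {n i : ℕ} (hi : i ≤ n + 2) : stage n i = cup i := by
  unfold cup
  rcases le_total n i with h | h
  · obtain ⟨k, rfl⟩ := Nat.exists_eq_add_of_le h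
    exact (stage_stable hi k).symm
  · obtain ⟨k, rfl⟩ := Nat.exists_eq_add_of_le h
    exact stage_stable (by omega) k

theorem cup_rec {n : ℕ} : cup (n + 3) = sInf (cand cup (n + 3)) := by
  rw [← stage_eq_cup (show n + 3 ≤ (n + 1) + 2 by omega)]
  change Function.update (stage n) (n + 3) _ (n + 3) = _
  rw [Function.update_self, cand_congr (b := cup) (by omega)]
  intro i hi
  exact stage_eq_cup (by omega)

/-- The sequence exists. -/
theorem isCup_cup : IsCup cup := by
  have h1 : cup 1 = 1 := by rw [← stage_eq_cup (show 1 ≤ 0 + 2 by omega)]; rfl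
  have h2 : cup 2 = 2 := by rw [← stage_eq_cup (show 2 ≤ 0 + 2 by omega)]; rfl
  have hmem : ∀ n, 3 ≤ n → cup n ∈ cand cup n := by
    intro n
    induction n using Nat.strong_induction_on with
    | _ n ih =>
      intro hn
      obtain ⟨k, rfl⟩ : ∃ k, n = k + 3 := ⟨n - 3, by omega⟩
      rw [cup_rec]
      refine Nat.sInf_mem (cand_nonempty _ _ (by omega) ?_)
      intro i hi hin
      rcases (by omega : i = 1 ∨ i = 2 ∨ 3 ≤ i) with rfl | rfl | h3
      · rw [h1]; norm_num
      · rw [h2]; norm_num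
      · exact (ih i hin h3).1
  refine ⟨h1, h2, fun n hn => ⟨hmem n hn, ?_⟩⟩
  intro m hm
  obtain ⟨k, rfl⟩ : ∃ k, n = k + 3 := ⟨n - 3, by omega⟩
  rw [cup_rec]
  exact Nat.sInf_le hm

end Pool.Agent.Helper69.Cup
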